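import Pool.Agent.helper53.AU.SpecG3

/-!
# Project au, module B1: in case (b) `oddPart A` is normalised by the centralisers of its elements
of prime order
-/

namespace Pool.Agent.helper53.AU

open scoped Classical

lemma B1_card (c N : ℕ) (hc : Odd c) (h3 : 3 ≤ c) (hN : 2 * N = 3 ^ c + 1) :
    ∃ p : ℕ, p.Prime ∧ p ≠ 2 ∧ p ∣ N := by
  obtain ⟨k, rfl⟩ := hc
  have h9 : ∀ k : ℕ, 3 ^ (2 * k + 1) % 8 = 3 := by
    intro k
    induction k with
    | zero => rfl
    | succ k ih =>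
      have : 3 ^ (2 * (k + 1) + 1) = 9 * 3 ^ (2 * k + 1) := by ring
      omega
  have h8 := h9 k
  have h27 : 27 ≤ 3 ^ (2 * k + 1) := by
    calc 27 = 3 ^ 3 := by norm_num
      _ ≤ 3 ^ (2 * k + 1) := Nat.pow_le_pow_right (by norm_num) h3
  generalize 3 ^ (2 * k + 1) = X at hN h8 h27
  obtain ⟨m, hm⟩ : ∃ m, N = 2 * m := ⟨N / 2, by omega⟩
  have hm1 : m % 2 = 1 := by omega
  have hm2 : m ≠ 1 := by omega
  obtain ⟨p, hp, hpm⟩ := Nat.exists_prime_and_dvd hm2
  refine ⟨p, hp, ?_, ?_⟩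
  · rintro rfl
    omega
  · rw [hm]; exact Dvd.dvd.mul_left hpm 2

/-- an element of order dividing two of `H` centralises `B`, when a subgroup `D` of odd index of `H`
does, and `H` normalises `B` -/
lemma B1_index {L : Type} [Group L] [Finite L] (H B D : Subgroup L) (s : L) (ν n : ℕ)
    (hB : ∀ g ∈ H, ∀ a ∈ B, g * a * g⁻¹ ∈ B) (hDH : D ≤ H)
    (hDB : ∀ d ∈ D, ∀ a ∈ B, d * a = a * d) (hD : Nat.card D = n) (hH : Nat.card H = ν * n)
    (hν : Odd ν) (hs : s ∈ H) (hss : s * s = 1) : ∀ a ∈ B, s * a = a * s := by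
  set K : Subgroup H := (Subgroup.centralizer (B : Set L)).subgroupOf H with hK
  have memK : ∀ x : H, x ∈ K ↔ ∀ a ∈ B, (x : L) * a = a * x := by
    intro x
    rw [hK, Subgroup.mem_subgroupOf, Subgroup.mem_centralizer_iff]
    exact ⟨fun h a ha => (h a ha).symm, fun h a ha => (h a ha).symm⟩
  have hKn : K.Normal := by
    refine ⟨fun k hk g => ?_⟩
    rw [memK] at hk ⊢
    intro a ha
    have h1 : (g : L)⁻¹ * a * g ∈ B := by
      have := hB (g : L)⁻¹ (H.inv_mem g.2) a ha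
      simpa using this
    have h2 := hk _ h1
    have e1 : ((g * k * g⁻¹ : H) : L) = (g : L) * k * (g : L)⁻¹ := rfl
    rw [e1]
    calc (g : L) * k * (g : L)⁻¹ * a = (g : L) * ((k : L) * ((g : L)⁻¹ * a * g)) * (g : L)⁻¹ := by
          group
      _ = (g : L) * (((g : L)⁻¹ * a * g) * (k : L)) * (g : L)⁻¹ := by rw [h2]
      _ = a * ((g : L) * k * (g : L)⁻¹) := by group
  have hDK : D.subgroupOf H ≤ K := by
    intro x hx
    rw [memK]
    exact hDB x hx
  have hcD : Nat.card (D.subgroupOf H) = n := by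
    rw [← hD]
    exact Nat.card_congr (Subgroup.subgroupOfEquivOfLe hDH).toEquiv
  have hdvd : n ∣ Nat.card K := by
    rw [← hcD]
    exact Subgroup.card_dvd_of_le hDK
  have hn : 0 < n := by
    rw [← hD]
    exact Nat.card_pos
  obtain ⟨x, hx⟩ := hdvd
  have hidx := K.card_mul_index
  rw [hx, hH] at hidx
  have h3 : x * K.index = ν := by
    have : n * (x * K.index) = n * ν := by
      rw [← mul_assoc, hidx, mul_comm]
    exact Nat.eq_of_mul_eq_mul_left hn this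
  have hodd : Odd K.index := by
    rw [← h3] at hν
    exact (Nat.odd_mul.mp hν).2
  obtain ⟨j, hj⟩ := hodd
  have h4 := Subgroup.pow_index_mem K (⟨s, hs⟩ : H)
  have h5 : (⟨s, hs⟩ : H) ^ K.index = ⟨s, hs⟩ := by
    have h6 : (⟨s, hs⟩ : H) ^ 2 = 1 := by
      rw [pow_two]
      exact Subtype.ext hss
    rw [hj, pow_succ, pow_mul, h6, one_pow, one_mul]
  rw [h5, memK] at h4
  exact h4

lemma B1_regcard {L Ω : Type} [Group L] [MulAction L Ω] (D : Subgroup L) (h : Regular Ω D)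
    (α : Ω) : Nat.card D = Nat.card Ω := by
  refine Nat.card_eq_of_bijective (fun d : D => (d : L) • α) ⟨?_, ?_⟩
  · intro d e hde
    obtain ⟨x, hx, hu⟩ := h α ((d : L) • α)
    rw [hu d rfl, hu e hde.symm]
  · intro β
    obtain ⟨x, hx, _⟩ := h α β
    exact ⟨x, hx⟩

theorem B1 (hM2 : M2_stmt) (hM3 : M3_stmt) (hPLL : PLL_stmt) (hP1 : P1_stmt) (hP4 : P4_stmt)
    (hP5 : P5_stmt) (hP6 : P6_stmt) (hAB : AB_stmt) : B1_stmt := by
  intro L Ω _ _ A t hL hd hc hT ρ hρ hρp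
  rcases hM2 L Ω A t ρ hL hd hρ hρp (hc ρ hρ) with h | ⟨E, hE1, hE2, hE3, hE4⟩
  · exact h
  exfalso
  have hPL := hPLL L Ω A hL
  haveI : Finite L := hL.finL
  obtain ⟨α⟩ := hPL.nonempty
  obtain ⟨hLE, hcard⟩ := hM3 L Ω A t ρ hL hd hρ hρp (hc ρ hρ) E hE1 hE2 hE3 hE4 α
  have hG := hT E (MulAction.orbit E α) (A.subgroupOf E) hLE hcard
  obtain ⟨c, hc1, hc3, hcΩ, -⟩ := hG.card
  obtain ⟨tE, htE⟩ := hLE.dih
  have hinv := hG.inverts tE htE
  have hcA := hLE.cardA
  rw [hcΩ] at hcA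
  obtain ⟨p, hp, hp2, hpd⟩ := B1_card c _ hc1 hc3 hcA
  haveI := Fact.mk hp
  obtain ⟨b, hb⟩ := exists_prime_orderOf_dvd_card' p hpd
  have hbA : ((b : E) : L) ∈ A := b.2
  have hob : orderOf ((b : E) : L) = p := by
    rw [Subgroup.orderOf_coe, Subgroup.orderOf_coe, hb]
  have hodd : Odd (orderOf ((b : E) : L)) := by
    rw [hob]
    exact hp.odd_of_ne_two hp2
  have hbo : ((b : E) : L) ∈ oddPart A := Subgroup.subset_closure ⟨hbA, hodd⟩
  -- the involution
  obtain ⟨τ, hτA, hτ⟩ := (hP1 L Ω A hPL).1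
  obtain ⟨τ', hτ'A, hτ'⟩ := (hP1 E _ _ (hPLL _ _ _ hLE)).1
  have hττ : ((τ' : E) : L) = τ := by
    refine (hAB L A hL.cyc).2.2.2.2.2.2.2.2.1 _ _ hτ'A hτA ⟨?_, ?_⟩ hτ
    · exact congrArg Subtype.val hτ'.1
    · intro h
      exact hτ'.2 (Subtype.ext h)
  have htτ : (tE : L) * τ = τ * tE := by
    have h1 := htE.2.2 τ' hτ'A ⟨1, by rw [pow_one, pow_two]; exact hτ'.1⟩
    have h2 : τ'⁻¹ = τ' := inv_eq_of_mul_eq_one_left hτ'.1
    rw [h2, mul_inv_eq_iff_eq_mul] at h1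
    have h3 := congrArg (Subtype.val) h1
    rw [← hττ]
    exact h3
  -- tE centralises the odd part
  obtain ⟨ν, hν, -, hνc, -⟩ := hP4 L Ω A hPL
  have h6 := hP6 L Ω A hPL τ t hτA hτ hd
  have hcomm : ∀ a ∈ A, ∀ a' ∈ A, a * a' = a' * a := by
    intro a ha a' ha'
    haveI := hL.cyc
    letI := IsCyclic.commGroup (α := A)
    have h1 : (⟨a, ha⟩ : A) * ⟨a', ha'⟩ = ⟨a', ha'⟩ * ⟨a, ha⟩ := mul_comm _ _
    exact congrArg Subtype.val h1
  have hoA : oddPart A ≤ A := (Subgroup.closure_le A).mpr (fun x hx => hx.1)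
  have memH : ∀ g : L, g ∈ Subgroup.centralizer ({τ} : Set L) ↔ g * τ = τ * g := by
    intro g
    rw [Subgroup.mem_centralizer_iff]
    constructor
    · intro h; exact (h τ rfl).symm
    · rintro h x rfl; exact h.symm
  have key := B1_index (Subgroup.centralizer ({τ} : Set L)) (oddPart A)
    (A ⊔ Subgroup.zpowers t) (tE : L) ν (Nat.card Ω)
    (fun g hg a ha => (hP5 L Ω A hPL τ hτA hτ).1 g ((memH g).mp hg) a ha)
    (sup_le (fun a ha => (memH a).mpr (hcomm a ha τ hτA))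
      (by rw [Subgroup.zpowers_le]; exact (memH t).mpr h6.1))
    (by
      have h7 : A ⊔ Subgroup.zpowers t ≤ Subgroup.centralizer (oddPart A : Set L) := by
        refine sup_le (fun a ha => ?_) ?_
        · rw [Subgroup.mem_centralizer_iff]
          exact fun x hx => hcomm x (hoA hx) a ha
        · rw [Subgroup.zpowers_le, Subgroup.mem_centralizer_iff]
          exact fun x hx => (hc x hx).symm
      intro d hd a ha
      exact ((Subgroup.mem_centralizer_iff.mp (h7 hd)) a ha).symm)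
    (B1_regcard _ h6.2.2.2.1 α)
    (by
      rw [← hνc τ hτ]
      exact Nat.card_congr (Equiv.subtypeEquivRight memH))
    hν ((memH _).mpr htτ) (congrArg Subtype.val htE.1) _ hbo
  -- contradiction
  have hi := congrArg (Subtype.val) (hinv b b.2)
  have hi' : (tE : L) * ((b : E) : L) * (tE : L)⁻¹ = ((b : E) : L)⁻¹ := hi
  rw [key, mul_inv_cancel_right] at hi'
  have h8 : ((b : E) : L) ^ 2 = 1 := by
    rw [pow_two]
    nth_rewrite 1 [hi']
    exact inv_mul_cancel _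
  have h9 := orderOf_dvd_of_pow_eq_one h8
  rw [hob] at h9
  exact hp2 ((Nat.prime_dvd_prime_iff_eq hp Nat.prime_two).mp h9)

end Pool.Agent.helper53.AU
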