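import Pool.Agent.helper53.AU.SpecG2

/-!
# Project au, module CM: commutators act trivially on a cyclic normalised subgroup
-/

namespace Pool.Agent.helper53.AU

open scoped Classical

/-- conjugation by a normalising element is a power map on a cyclic subgroup -/
lemma CM_pow {L : Type} [Group L] (A : Subgroup L) (hA : IsCyclic A) (g : L)
    (hg : ∀ a ∈ A, g * a * g⁻¹ ∈ A) : ∃ m : ℤ, ∀ a ∈ A, g * a * g⁻¹ = a ^ m := by
  obtain ⟨z, hz⟩ := hA.exists_generator
  obtain ⟨m, hm⟩ := Subgroup.mem_zpowers_iff.mp (hz ⟨g * z * g⁻¹, hg z z.2⟩)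
  have hm' : (z : L) ^ m = g * z * g⁻¹ := by
    have := congrArg (Subtype.val) hm
    simpa using this
  refine ⟨m, fun a ha => ?_⟩
  obtain ⟨k, hk⟩ := Subgroup.mem_zpowers_iff.mp (hz ⟨a, ha⟩)
  have hk' : (z : L) ^ k = a := by
    have := congrArg (Subtype.val) hk
    simpa using this
  rw [← hk', ← conj_zpow, ← hm', ← zpow_mul, ← zpow_mul, mul_comm]

lemma CM_surj {L : Type} [Group L] [Finite L] (A : Subgroup L) (g : L)
    (hg : ∀ a ∈ A, g * a * g⁻¹ ∈ A) (a : L) (ha : a ∈ A) : ∃ b ∈ A, g * b * g⁻¹ = a := by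
  let f : A → A := fun b => ⟨g * b * g⁻¹, hg b b.2⟩
  have hf : Function.Injective f := by
    intro x y hxy
    have h1 : g * (x : L) * g⁻¹ = g * (y : L) * g⁻¹ := congrArg Subtype.val hxy
    have h2 : (x : L) = y := by
      have h3 := mul_right_cancel h1
      exact mul_left_cancel h3
    exact Subtype.ext h2
  obtain ⟨b, hb⟩ := Finite.surjective_of_injective hf ⟨a, ha⟩
  exact ⟨b, b.2, congrArg Subtype.val hb⟩

theorem CM : CM_stmt := by
  intro L _ _ A hA g h hg hh a ha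
  obtain ⟨m, hm⟩ := CM_pow A hA g hg
  obtain ⟨n, hn⟩ := CM_pow A hA h hh
  have hgh : ∀ b ∈ A, (g * h) * b * (g * h)⁻¹ = b ^ (n * m) := by
    intro b hb
    have e : (g * h) * b * (g * h)⁻¹ = g * (h * b * h⁻¹) * g⁻¹ := by group
    rw [e, hn b hb, hm _ (A.zpow_mem hb n), ← zpow_mul]
  have hhg : ∀ b ∈ A, (h * g) * b * (h * g)⁻¹ = b ^ (n * m) := by
    intro b hb
    have e : (h * g) * b * (h * g)⁻¹ = h * (g * b * g⁻¹) * h⁻¹ := by group
    rw [e, hm b hb, hn _ (A.zpow_mem hb m), ← zpow_mul, mul_comm]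
  obtain ⟨b, hb, hba⟩ := CM_surj A (h * g) (fun b hb => by rw [hhg b hb]; exact A.zpow_mem hb _) a ha
  have h2 : (g * h) * b * (g * h)⁻¹ = a := by rw [hgh b hb, ← hhg b hb, hba]
  have e : g * h * g⁻¹ * h⁻¹ = (g * h) * (h * g)⁻¹ := by group
  rw [e]
  calc (g * h) * (h * g)⁻¹ * a = (g * h) * (h * g)⁻¹ * ((h * g) * b * (h * g)⁻¹) := by rw [hba]
    _ = ((g * h) * b * (g * h)⁻¹) * ((g * h) * (h * g)⁻¹) := by group
    _ = a * ((g * h) * (h * g)⁻¹) := by rw [h2]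

end Pool.Agent.helper53.AU
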